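import Mathlib
import Pool.Agent.H45.Lib.S8.H469R2.NK.KL

namespace Pool.Agent.H373R2.T3
open Finset
open Pool.Agent.H469R2.NK (e norm_e e_add conj_e kusmin_landau_anti norm_sum_neg e_zero)

lemma rpow_mvt (α : ℝ) {a b : ℝ} (ha : 0 < a) (hab : a < b) :
    ∃ c, a < c ∧ c < b ∧ b ^ α - a ^ α = α * c ^ (α - 1) * (b - a) := by
  obtain ⟨c, ⟨hc1, hc2⟩, hc⟩ := exists_hasDerivAt_eq_slope (fun t : ℝ => t ^ α) (fun t : ℝ => α * t ^ (α - 1)) hab
    (by
      apply ContinuousOn.rpow_const continuousOn_id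
      intro t ht
      left
      simp only [id]
      have := ht.1
      linarith)
    (by
      intro t ht
      exact Real.hasDerivAt_rpow_const (Or.inl (by have := ht.1; linarith)))
  refine ⟨c, hc1, hc2, ?_⟩
  have hba : b - a ≠ 0 := by linarith
  rw [eq_div_iff hba] at hc
  linarith

lemma rpow_anti' {α : ℝ} (h1 : α < 1) {s t : ℝ} (hs : 0 < s) (hst : s ≤ t) : t ^ (α - 1) ≤ s ^ (α - 1) :=
  Real.rpow_le_rpow_of_nonpos hs hst (by linarith)

/-- upper and lower bounds for differences -/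
lemma rpow_diff {α : ℝ} (h0 : 0 < α) (h1 : α < 1) {a b : ℝ} (ha : 0 < a) (hab : a < b) :
    α * b ^ (α - 1) * (b - a) ≤ b ^ α - a ^ α ∧ b ^ α - a ^ α ≤ α * a ^ (α - 1) * (b - a) := by
  obtain ⟨c, hc1, hc2, hc⟩ := rpow_mvt α ha hab
  rw [hc]
  have hba : 0 ≤ b - a := by linarith
  constructor
  · apply mul_le_mul_of_nonneg_right _ hba
    apply mul_le_mul_of_nonneg_left _ h0.le
    exact rpow_anti' h1 (by linarith) hc2.le
  · apply mul_le_mul_of_nonneg_right _ hba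
    apply mul_le_mul_of_nonneg_left _ h0.le
    exact rpow_anti' h1 ha hc1.le

lemma rpow_quarter {α : ℝ} (h0 : 0 < α) (h1 : α < 1) {A : ℝ} (hA : 0 < A) : A ^ (α - 1) / 5 ≤ (5 * A) ^ (α - 1) := by
  rw [Real.mul_rpow (by norm_num) hA.le]
  have h2 : (1 : ℝ) / 5 ≤ 5 ^ (α - 1) := by
    have h3 : (5 : ℝ) ^ (-1 : ℝ) ≤ 5 ^ (α - 1) := Real.rpow_le_rpow_of_exponent_le (by norm_num) (by linarith)
    rw [Real.rpow_neg_one] at h3
    linarith
  have h4 : 0 ≤ A ^ (α - 1) := Real.rpow_nonneg hA.le _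
  calc A ^ (α - 1) / 5 = 1 / 5 * A ^ (α - 1) := by ring
    _ ≤ _ := mul_le_mul_of_nonneg_right h2 h4

theorem kl_range {α : ℝ} (h0 : 0 < α) (h1 : α < 1) (c : ℝ) (hc : 0 < c) (A L : ℕ) (hA : 1 ≤ A) (hL : L ≤ 4 * A)
    (hcA : c * α * (A : ℝ) ^ (α - 1) ≤ 1 / 2) :
    ‖∑ n ∈ range L, e (c * ((A + n : ℕ) : ℝ) ^ α)‖ ≤ 10 / α * ((A : ℝ) ^ (1 - α) / c) := by
  have hA0 : (0 : ℝ) < A := by exact_mod_cast hA
  have hAp : 0 < (A : ℝ) ^ (α - 1) := Real.rpow_pos_of_pos hA0 _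
  set θ : ℝ := α / 5 * c * (A : ℝ) ^ (α - 1) with hθ
  have hθ0 : 0 < θ := by positivity
  have hθ1 : θ ≤ 1 / 10 := by
    rw [hθ]
    calc α / 5 * c * (A : ℝ) ^ (α - 1) = 1 / 5 * (c * α * (A : ℝ) ^ (α - 1)) := by ring
      _ ≤ 1 / 5 * (1 / 2) := mul_le_mul_of_nonneg_left hcA (by norm_num)
      _ = _ := by norm_num
  have hn0 : ∀ n : ℕ, (0 : ℝ) < ((A + n : ℕ) : ℝ) := fun n => by exact_mod_cast (by omega : 0 < A + n)
  have hcast : ∀ n : ℕ, ((A + (n + 1) : ℕ) : ℝ) = ((A + n : ℕ) : ℝ) + 1 := fun n => by push_cast; ring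
  have hdiff : ∀ n : ℕ, α * (((A + n : ℕ) : ℝ) + 1) ^ (α - 1) ≤ (((A + n : ℕ) : ℝ) + 1) ^ α - ((A + n : ℕ) : ℝ) ^ α ∧
      (((A + n : ℕ) : ℝ) + 1) ^ α - ((A + n : ℕ) : ℝ) ^ α ≤ α * ((A + n : ℕ) : ℝ) ^ (α - 1) := by
    intro n
    have := rpow_diff h0 h1 (hn0 n) (show ((A + n : ℕ) : ℝ) < ((A + n : ℕ) : ℝ) + 1 by linarith)
    rw [add_sub_cancel_left, mul_one, mul_one] at this
    exact this
  have h := kusmin_landau_anti (fun n => c * ((A + n : ℕ) : ℝ) ^ α) L hθ0 (by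
      intro n hn
      simp only [hcast]
      rw [← mul_sub]
      have h2 := (hdiff n).1
      have h3 : (5 * (A : ℝ)) ^ (α - 1) ≤ (((A + n : ℕ) : ℝ) + 1) ^ (α - 1) := by
        apply rpow_anti' h1 (by have := hn0 n; linarith)
        have : A + n + 1 ≤ 5 * A := by omega
        exact_mod_cast this
      have h4 := rpow_quarter h0 h1 hA0
      calc θ = c * (α * ((A : ℝ) ^ (α - 1) / 5)) := by rw [hθ]; ring
        _ ≤ c * (α * (((A + n : ℕ) : ℝ) + 1) ^ (α - 1)) := by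
            apply mul_le_mul_of_nonneg_left _ hc.le
            apply mul_le_mul_of_nonneg_left _ h0.le
            exact h4.trans h3
        _ ≤ _ := mul_le_mul_of_nonneg_left h2 hc.le) (by
      intro n hn
      simp only [hcast]
      rw [← mul_sub]
      have h2 := (hdiff n).2
      have h3 : ((A + n : ℕ) : ℝ) ^ (α - 1) ≤ (A : ℝ) ^ (α - 1) := rpow_anti' h1 hA0 (by push_cast; have : (0 : ℝ) ≤ n := Nat.cast_nonneg n; linarith)
      have h4 : c * ((((A + n : ℕ) : ℝ) + 1) ^ α - ((A + n : ℕ) : ℝ) ^ α) ≤ 1 / 2 := by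
        calc _ ≤ c * (α * (A : ℝ) ^ (α - 1)) := by
              apply mul_le_mul_of_nonneg_left _ hc.le
              exact h2.trans (mul_le_mul_of_nonneg_left h3 h0.le)
          _ = c * α * (A : ℝ) ^ (α - 1) := by ring
          _ ≤ _ := hcA
      linarith) (by
      intro n hn
      have e2 : ((A + (n + 2) : ℕ) : ℝ) = (((A + n : ℕ) : ℝ) + 1) + 1 := by push_cast; ring
      simp only [hcast, e2]
      rw [← mul_sub, ← mul_sub]
      apply mul_le_mul_of_nonneg_left _ hc.le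
      have h2 := (hdiff (n + 1)).2
      rw [hcast] at h2
      exact h2.trans (hdiff n).1)
  refine h.trans (le_of_eq ?_)
  rw [hθ]
  have e1 : (A : ℝ) ^ (1 - α) = ((A : ℝ) ^ (α - 1))⁻¹ := by
    rw [← Real.rpow_neg hA0.le]; congr 1; ring
  rw [e1]
  field_simp
  norm_num

theorem kl_Ioc {α : ℝ} (h0 : 0 < α) (h1 : α < 1) (c : ℝ) (hc : 0 < c) (M a b : ℕ) (hM : 1 ≤ M) (ha : M ≤ a + 1)
    (hb : b ≤ 4 * M) (hcM : c * α * (M : ℝ) ^ (α - 1) ≤ 1 / 2) :
    ‖∑ n ∈ Ioc a b, e (c * (n : ℝ) ^ α)‖ ≤ 40 / α * ((M : ℝ) ^ (1 - α) / c) := by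
  have hM0 : (0 : ℝ) < M := by exact_mod_cast hM
  have hMp : 0 < (M : ℝ) ^ (1 - α) := Real.rpow_pos_of_pos hM0 _
  rcases Nat.lt_or_ge a b with hab | hab
  · have e1 : ∑ n ∈ Ioc a b, e (c * (n : ℝ) ^ α) = ∑ n ∈ range (b - a), e (c * ((a + 1 + n : ℕ) : ℝ) ^ α) := by
      have h3 : Ioc a b = Ico (a + 1) (b + 1) := by ext n; simp only [mem_Ioc, mem_Ico]; omega
      rw [h3, sum_Ico_eq_sum_range]
      congr 2
      omega
    rw [e1]
    have hA0 : (0 : ℝ) < ((a + 1 : ℕ) : ℝ) := by positivity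
    have h2 := kl_range h0 h1 c hc (a + 1) (b - a) (by omega) (by omega) (by
      refine le_trans ?_ hcM
      apply mul_le_mul_of_nonneg_left _ (by positivity)
      exact rpow_anti' h1 hM0 (by exact_mod_cast ha))
    refine h2.trans ?_
    have h3 : (((a + 1 : ℕ) : ℝ)) ^ (1 - α) ≤ 4 * (M : ℝ) ^ (1 - α) := by
      calc (((a + 1 : ℕ) : ℝ)) ^ (1 - α) ≤ (4 * (M : ℝ)) ^ (1 - α) := by
            apply Real.rpow_le_rpow hA0.le _ (by linarith)
            exact_mod_cast (by omega : a + 1 ≤ 4 * M)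
        _ = 4 ^ (1 - α) * (M : ℝ) ^ (1 - α) := Real.mul_rpow (by norm_num) hM0.le
        _ ≤ 4 * (M : ℝ) ^ (1 - α) := by
            apply mul_le_mul_of_nonneg_right _ hMp.le
            calc (4 : ℝ) ^ (1 - α) ≤ 4 ^ (1 : ℝ) := Real.rpow_le_rpow_of_exponent_le (by norm_num) (by linarith)
              _ = 4 := Real.rpow_one 4
    calc 10 / α * ((((a + 1 : ℕ) : ℝ)) ^ (1 - α) / c) ≤ 10 / α * (4 * (M : ℝ) ^ (1 - α) / c) := by
          apply mul_le_mul_of_nonneg_left _ (by positivity)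
          exact div_le_div_of_nonneg_right h3 hc.le
      _ = _ := by ring
  · rw [Ioc_eq_empty (by omega), sum_empty, norm_zero]
    positivity

end Pool.Agent.H373R2.T3
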